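import Pool.Agent.Y285.SR.Trap
import Pool.Agent.Y285.SR.Lower

/-!
The strong ratio limit of a subcritical and a critical heat kernel fails as badly as possible.
One subcritical operator `P₊ = e^{-2x}(-∂² + ∂)` on `ℝ` and one compact set `K` serve for all rates:
for every `h : ℝ → ℝ` with `liminf h(t)/t ≤ 0` there is a critical operator `P₀ = -a ∂²` such that
`sup_K k_{P₊}/k_{P₀}` exceeds every multiple of `exp (max (h t) 0)` at arbitrarily large times; and no
operator `-a ∂²` gives more: the ratio is eventually below `exp (ε t)`, for every `ε > 0`.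
-/

set_option autoImplicit false
open Set Filter Topology MeasureTheory
open scoped ContDiff

namespace Pool.Agent.Results.MP_13e997_an.SubexponentialGrowth

open Pool.Agent.W799.SRL Pool.Agent.Y285.SR

/-- `liminf_{t → ∞} h t / t ≤ 0`. -/
def Subexp (h : ℝ → ℝ) : Prop := ∀ ε > 0, ∀ T : ℝ, ∃ t ≥ T, h t ≤ ε * t

/-- `P u = - a u''` on `ℝ`. -/
def opOf (a : ℝ → ℝ) : Op := ⟨a, fun _ => 0, fun _ => 0⟩

theorem result : ∃ (Pp : Op) (K : Set (ℝ × ℝ)),
    Pp.Elliptic ∧ Pp.Nonneg ∧ IsCompact K ∧ (∃ k, IsHeatKernel Pp k) ∧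
    (∀ k, IsHeatKernel Pp k → Subcritical k) ∧
    (∀ h : ℝ → ℝ, Subexp h → ∃ a : ℝ → ℝ, ContDiff ℝ ∞ a ∧ (∀ x, 0 < a x) ∧ (∀ x, a x ≤ 1) ∧
      (opOf a).Elliptic ∧ (opOf a).Nonneg ∧
      (∀ u : ℝ → ℝ, ContDiff ℝ 2 u → (∀ x, 0 < u x) → (∀ x, 0 ≤ (opOf a).app u x) →
        ∀ x y, u x = u y) ∧
      (∀ k k0, IsHeatKernel Pp k → IsHeatKernel (opOf a) k0 → ¬ Subcritical k0 ∧
        ¬ TendstoUniformlyOn (fun t p => k p.1 p.2 t / k0 p.1 p.2 t) (fun _ => 0) atTop K ∧
        ∀ C T : ℝ, ∃ t ≥ T, ∃ p ∈ K, C * Real.exp (max (h t) 0) < k p.1 p.2 t / k0 p.1 p.2 t) ∧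
      (∃ f : ℝ → ℝ, Continuous f ∧ HasCompactSupport f ∧ (∀ x, 0 ≤ f x) ∧
        ∀ k, IsHeatKernel Pp k → ∀ C T : ℝ, ∃ t ≥ T, ∃ w, IsSuper (opOf a) w ∧
          (∀ x, f x ≤ w x 0) ∧ C * Real.exp (max (h t) 0) * w 0 t < ∫ y, k 0 y t * f y)) ∧
    (∀ a : ℝ → ℝ, ContDiff ℝ ∞ a → (∀ x, 0 < a x) → ∀ k k0, IsHeatKernel Pp k →
      IsHeatKernel (opOf a) k0 → ¬ Subcritical k0 ∧ ∀ K' : Set (ℝ × ℝ), IsCompact K' →
        ∀ ε > 0, ∀ᶠ t in atTop, ∀ p ∈ K', k p.1 p.2 t / k0 p.1 p.2 t ≤ Real.exp (ε * t)) := by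
  refine ⟨opP, {0} ×ˢ Icc (-1) 1, opP_elliptic, opP_nonneg, isCompact_singleton.prod isCompact_Icc,
    ⟨kp, kp_isHeatKernel⟩, fun k hk x y hxy => ?_, fun h hh => ?_,
    fun a ha ha0 k k0 hk hk0 => ⟨opA_not_subcritical ha.continuous ha0 hk0.toIsFundamental,
      fun K' hK' ε hε => ?_⟩⟩
  · refine (kp_subcritical x y hxy).congr_fun (fun t ht => ?_) measurableSet_Ioi
    exact (hk.unique kp_isHeatKernel x y t ht).symm
  · obtain ⟨a, t, ha, ha0, ha1, ht, hw⟩ := Pool.Agent.Y285.SR.exists_trap hh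
    -- kernel free statement
    have hfree : ∀ C T : ℝ, 0 ≤ C → ∃ t ≥ T, 0 < t ∧ ∃ w, IsSuper (opA a) w ∧
        (∀ x, tent x ≤ w x 0) ∧ C * Real.exp (max (h t) 0) * w 0 t < ∫ y, kp 0 y t * tent y := by
      intro C T hC
      set I := ∫ y, tent y with hI
      have hI0 : 0 < I := tent_integral_pos
      obtain ⟨n, hn⟩ := exists_nat_gt (max T ((320 * C / I) ^ 2 + 1))
      have hnT : T < n := lt_of_le_of_lt (le_max_left _ _) hn
      have hnC : (320 * C / I) ^ 2 + 1 < n := lt_of_le_of_lt (le_max_right _ _) hn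
      have hn1 : 1 ≤ n := by
        have : (1:ℝ) < n := by nlinarith [sq_nonneg (320 * C / I)]
        exact_mod_cast this.le
      have htn := ht n
      have hn0 : (1:ℝ) ≤ n := by exact_mod_cast hn1
      have ht2 : 2 ≤ t n := by linarith
      have ht0 : 0 < t n := by linarith
      obtain ⟨w, hw1, hw2, hw3⟩ := hw n hn1
      refine ⟨t n, by linarith, ht0, w, hw1, hw2, ?_⟩
      have hlow := kp_tent_lower ht2
      have hst : 0 < √(t n) := Real.sqrt_pos.2 ht0
      have hss : √(t n) * √(t n) = t n := Real.mul_self_sqrt ht0.le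
      have hE0 : 0 < Real.exp (max (h (t n)) 0) := Real.exp_pos _
      have hw4 : Real.exp (max (h (t n)) 0) * w 0 (t n) ≤ 5 / (t n) ^ 2 := by
        have h1 : Real.exp (max (h (t n)) 0) * w 0 (t n) ≤
            Real.exp (max (h (t n)) 0) * (5 / ((t n) ^ 2 * Real.exp (max (h (t n)) 0))) := by
          gcongr
        refine h1.trans (le_of_eq ?_)
        field_simp
      by_contra hcon
      push Not at hcon
      have hfin : 1 / 64 * ((t n)⁻¹ * (√(t n))⁻¹) * I ≤ C * (5 / (t n) ^ 2) := by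
        refine hlow.trans (hcon.trans ?_)
        rw [mul_assoc]
        gcongr
      have h5 : I * √(t n) ≤ 320 * C := by
        have e1 : 1 / 64 * ((t n)⁻¹ * (√(t n))⁻¹) * I * (64 * (t n) ^ 2) = I * √(t n) := by
          field_simp
          nlinarith [hss]
        have e2 : C * (5 / (t n) ^ 2) * (64 * (t n) ^ 2) = 320 * C := by
          field_simp; ring
        rw [← e1, ← e2]
        exact mul_le_mul_of_nonneg_right hfin (by positivity)
      have h6 : √(t n) ≤ 320 * C / I := by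
        rw [le_div_iff₀ hI0]; linarith
      have h7 : t n ≤ (320 * C / I) ^ 2 := by
        rw [← hss, sq]
        exact mul_le_mul h6 h6 hst.le (by positivity)
      linarith
    refine ⟨a, ha, ha0, ha1, opA_elliptic ha ha0, opA_nonneg a,
      fun u hu hp hs => opA_liouville ha0 hu hp hs, fun k k0 hk hk0 => ?_,
      ⟨tent, tent_cont, tent_supp, tent_nonneg, fun k hk C T => ?_⟩⟩
    · have hkk : ∀ x y t, 0 < t → k x y t = kp x y t := fun x y t ht =>
        hk.unique kp_isHeatKernel x y t ht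
      have hunb' : ∀ C T : ℝ, 0 ≤ C → ∃ t ≥ T, ∃ p ∈ ({0} ×ˢ Icc (-1) 1 : Set (ℝ × ℝ)),
          C * Real.exp (max (h t) 0) < k p.1 p.2 t / k0 p.1 p.2 t := by
        intro C T hC
        by_contra hcon
        push Not at hcon
        obtain ⟨t, htT, ht0, w, hw1, hw2, hw3⟩ := hfree C T hC
        have hup := hk0.minimal tent tent_cont tent_supp tent_nonneg w hw1 hw2 0 t ht0
        have hi0 : Integrable (fun y => k0 0 y t * tent y) := by
          have := hk0.cont.comp (f := fun y : ℝ => ((0:ℝ), y, t)) (s := univ) (by fun_prop)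
            (fun y _ => ht0)
          exact ((continuousOn_univ.1 this).mul tent_cont).integrable_of_hasCompactSupport
            tent_supp.mul_left
        have hi : Integrable (fun y => kp 0 y t * tent y) := by
          have := kp_data.c.comp (f := fun y : ℝ => ((0:ℝ), y, t)) (s := univ) (by fun_prop)
            (fun y _ => ht0)
          exact ((continuousOn_univ.1 this).mul tent_cont).integrable_of_hasCompactSupport
            tent_supp.mul_left
        have hCe : 0 ≤ C * Real.exp (max (h t) 0) := mul_nonneg hC (Real.exp_pos _).le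
        have hcmp : ∫ y, kp 0 y t * tent y ≤ C * Real.exp (max (h t) 0) * ∫ y, k0 0 y t * tent y := by
          rw [← integral_const_mul]
          apply integral_mono hi (hi0.const_mul _)
          intro y
          by_cases hy : |y| ≤ 1
          · have h1 := hcon t htT (0, y) ⟨rfl, abs_le.1 hy⟩
            simp only at h1
            have h2 := hk0.pos 0 y t ht0
            rw [div_le_iff₀ h2, hkk 0 y t ht0] at h1
            have h4 := tent_nonneg y
            simp only
            nlinarith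
          · simp only
            rw [tent_zero (by linarith [not_le.1 hy])]; simp
        have : C * Real.exp (max (h t) 0) * ∫ y, k0 0 y t * tent y ≤ C * Real.exp (max (h t) 0) * w 0 t := by
          gcongr
        linarith
      have hunb : ∀ C T : ℝ, ∃ t ≥ T, ∃ p ∈ ({0} ×ˢ Icc (-1) 1 : Set (ℝ × ℝ)),
          C * Real.exp (max (h t) 0) < k p.1 p.2 t / k0 p.1 p.2 t := by
        intro C T
        obtain ⟨t, ht, p, hp, h1⟩ := hunb' (max C 0) T (le_max_right _ _)
        refine ⟨t, ht, p, hp, lt_of_le_of_lt ?_ h1⟩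
        have := Real.exp_pos (max (h t) 0)
        gcongr
        exact le_max_left _ _
      refine ⟨opA_not_subcritical ha.continuous ha0 hk0.toIsFundamental, ?_, hunb⟩
      intro hT
      rw [Metric.tendstoUniformlyOn_iff] at hT
      obtain ⟨T, hT⟩ := eventually_atTop.1 (hT 1 one_pos)
      obtain ⟨t, ht, p, hp, h1⟩ := hunb 1 T
      have h2 := hT t ht p hp
      have h3 : (1:ℝ) ≤ Real.exp (max (h t) 0) := Real.one_le_exp (le_max_right _ _)
      rw [dist_zero_left, Real.norm_eq_abs] at h2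
      linarith [le_abs_self (k p.1 p.2 t / k0 p.1 p.2 t)]
    · obtain ⟨t, htT, ht0, w, hw1, hw2, hw3⟩ := hfree (max C 0) T (le_max_right _ _)
      refine ⟨t, htT, w, hw1, hw2, ?_⟩
      have e : ∫ y, k 0 y t * tent y = ∫ y, kp 0 y t * tent y := by
        congr 1; funext y; rw [hk.unique kp_isHeatKernel 0 y t ht0]
      rw [e]
      have h1 := hw1.nonneg 0 t ht0.le
      have h2 := Real.exp_pos (max (h t) 0)
      have : C * Real.exp (max (h t) 0) * w 0 t ≤ max C 0 * Real.exp (max (h t) 0) * w 0 t := by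
        gcongr; exact le_max_left _ _
      linarith
  · obtain ⟨A, hA⟩ : ∃ A : ℝ, ∀ p ∈ K', |p.1| ≤ A ∧ |p.2| ≤ A := by
      obtain ⟨A, hA⟩ := hK'.isBounded.exists_norm_le
      exact ⟨A, fun p hp => ⟨(norm_fst_le p).trans (hA p hp), (norm_snd_le p).trans (hA p hp)⟩⟩
    obtain ⟨c, hc, hlow⟩ := kernel_lower ha.continuous ha0 hk0.toIsFundamental A (half_pos hε)
    have hev : ∀ᶠ t in atTop, Real.exp (3 * A) / c ≤ Real.exp (ε / 2 * t) :=
      (Real.tendsto_exp_atTop.comp (tendsto_id.const_mul_atTop (half_pos hε))).eventually_ge_atTop _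
    filter_upwards [hev, eventually_ge_atTop 1] with t h1 h2 p hp
    obtain ⟨hp1, hp2⟩ := hA p hp
    have ht0 : 0 < t := by linarith
    have h3 := hlow p.1 p.2 t hp1 hp2 h2
    have h4 := hk0.pos p.1 p.2 t ht0
    have h5 : k p.1 p.2 t ≤ Real.exp (3 * A) := by
      rw [hk.unique kp_isHeatKernel _ _ t ht0]
      refine (kp_le_one p.1 p.2 ht0).trans ?_
      have e1 : Real.exp p.1 ≤ Real.exp A := Real.exp_le_exp.2 ((le_abs_self _).trans hp1)
      have e2 : Real.exp p.2 ≤ Real.exp A := Real.exp_le_exp.2 ((le_abs_self _).trans hp2)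
      have e3 : t⁻¹ * (√t)⁻¹ ≤ 1 := by
        have g1 : t⁻¹ ≤ 1 := inv_le_one_of_one_le₀ h2
        have g2 : (√t)⁻¹ ≤ 1 := inv_le_one_of_one_le₀ (Real.one_le_sqrt.2 h2)
        exact mul_le_one₀ g1 (by positivity) g2
      calc Real.exp p.1 * Real.exp p.2 ^ 2 * (t⁻¹ * (√t)⁻¹)
          ≤ Real.exp A * Real.exp A ^ 2 * 1 := by gcongr
        _ = Real.exp (3 * A) := by
          rw [mul_one, ← Real.exp_nat_mul, ← Real.exp_add]; congr 1; push_cast; ring
    rw [div_le_iff₀ h4]
    have h6 : Real.exp (3 * A) ≤ c * Real.exp (ε / 2 * t) := by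
      rw [div_le_iff₀ hc] at h1; linarith
    have h7 : Real.exp (ε / 2 * t) * Real.exp (ε / 2 * t) = Real.exp (ε * t) := by
      rw [← Real.exp_add]; congr 1; ring
    have h8 : Real.exp (ε / 2 * t) * Real.exp (-(ε / 2 * t)) = 1 := by
      rw [← Real.exp_add]; simp
    calc k p.1 p.2 t ≤ c * Real.exp (ε / 2 * t) := h5.trans h6
      _ = Real.exp (ε * t) * (c * Real.exp (-(ε / 2 * t))) := by
        rw [← h7]
        calc _ = c * Real.exp (ε / 2 * t) * 1 := by ring
          _ = c * Real.exp (ε / 2 * t) * (Real.exp (ε / 2 * t) * Real.exp (-(ε / 2 * t))) := by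
            rw [h8]
          _ = _ := by ring
      _ ≤ Real.exp (ε * t) * k0 p.1 p.2 t := by gcongr

end Pool.Agent.Results.MP_13e997_an.SubexponentialGrowth
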